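import Pool.Agent.helper93.TV.Spec3

/-!
# Row `tv:TD`: the global dimension is at most the square of the total multiplicity
-/

set_option autoImplicit false

namespace Pool.Agent.helper93.TV

open BigOperators Finset

private theorem TD_aux {I : Type} (s : Finset I) (f : I → ℝ) (h : ∀ i ∈ s, 0 ≤ f i) :
    ∑ i ∈ s, f i ^ 2 ≤ (∑ i ∈ s, f i) ^ 2 := by
  rw [sq (∑ i ∈ s, f i), Finset.sum_mul]
  refine Finset.sum_le_sum fun i hi => ?_
  rw [sq]
  exact mul_le_mul_of_nonneg_left (Finset.single_le_sum h hi) (h i hi)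

theorem TD : TD_stmt := by
  intro I V _ _ _ _ D d hd
  obtain ⟨hpos, hmul⟩ := hd
  obtain ⟨b, -, hb⟩ := Finset.exists_max_image (univ : Finset I) d ⟨D.o, mem_univ _⟩
  set m : I → ℕ := fun a => (univ.filter (fun v => D.s1 v = a ∧ D.s2 v = b)).card with hm
  have h1 : ∀ a, d a ≤ (m a : ℝ) := by
    intro a
    have h2 : d a * d b ≤ (m a : ℝ) * d b := by
      rw [← hmul a b]
      calc ∑ v ∈ univ.filter (fun v => D.s1 v = a ∧ D.s2 v = b), d (D.t v)
          ≤ ∑ v ∈ univ.filter (fun v => D.s1 v = a ∧ D.s2 v = b), d b :=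
            Finset.sum_le_sum fun v _ => hb (D.t v) (mem_univ _)
        _ = (m a : ℝ) * d b := by rw [Finset.sum_const, nsmul_eq_mul]
    exact le_of_mul_le_mul_right h2 (hpos b)
  have h3 : ∑ a, m a ≤ Fintype.card V := by
    have e : ∑ a, m a = (univ.filter (fun v => D.s2 v = b)).card := by
      rw [Finset.card_eq_sum_card_fiberwise (f := D.s1) (t := univ) (fun _ _ => mem_univ _)]
      refine Finset.sum_congr rfl fun a _ => ?_
      rw [Finset.filter_filter]
      have e2 : (univ.filter (fun v => D.s1 v = a ∧ D.s2 v = b)) =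
          univ.filter (fun v => D.s2 v = b ∧ D.s1 v = a) := by
        ext v
        simp only [mem_filter, mem_univ, true_and]
        exact and_comm
      rw [← e2]
    rw [e]
    exact Finset.card_le_univ _
  have h4 : ∑ a, d a ^ 2 ≤ (∑ a, (m a : ℝ)) ^ 2 := by
    calc ∑ a, d a ^ 2 ≤ ∑ a, (m a : ℝ) ^ 2 :=
          Finset.sum_le_sum fun a _ => pow_le_pow_left₀ (hpos a).le (h1 a) 2
      _ ≤ (∑ a, (m a : ℝ)) ^ 2 := TD_aux univ _ (fun a _ => by positivity)
  refine h4.trans ?_
  have h5 : (∑ a, (m a : ℝ)) ≤ (Fintype.card V : ℝ) := by exact_mod_cast h3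
  exact pow_le_pow_left₀ (Finset.sum_nonneg fun a _ => by positivity) h5 2

end Pool.Agent.helper93.TV
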